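/-
helper47: module SEQ of the permutation stability theorem (MP_b95bd9_al, board of helper10):
almost actions are close to actions, from MATCH, AMEN, LIM and APPR.
-/
import Pool.Agent.H10.PS.Targets

set_option autoImplicit false

open MeasureTheory Filter Topology

namespace Pool.Agent.H47.PS

open Pool.Agent.H10.PS

/-! ### the subgroup `NN R m` -/

theorem NN_le {r : ℕ} {R : Subgroup (FG r)} [R.Normal] (m : ℕ) : NN R m ≤ R := by
  refine sup_le (Subgroup.commutator_le_left R R) ((Subgroup.closure_le _).2 ?_)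
  rintro _ ⟨a, ha, rfl⟩
  exact R.pow_mem ha m

theorem closure_normal {r : ℕ} {R : Subgroup (FG r)} [hR : R.Normal] (m : ℕ) :
    (Subgroup.closure {w | ∃ a ∈ R, w = a ^ m}).Normal := by
  refine ⟨fun n hn g => ?_⟩
  refine Subgroup.closure_induction
    (p := fun n _ => g * n * g⁻¹ ∈ Subgroup.closure {w | ∃ a ∈ R, w = a ^ m}) ?_ ?_ ?_ ?_ hn
  · rintro _ ⟨a, ha, rfl⟩
    refine Subgroup.subset_closure ⟨g * a * g⁻¹, hR.conj_mem a ha g, ?_⟩
    rw [conj_pow]
  · simp
  · intro x y _ _ hx hy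
    have h : g * (x * y) * g⁻¹ = (g * x * g⁻¹) * (g * y * g⁻¹) := by group
    rw [h]
    exact mul_mem hx hy
  · intro x _ hx
    have h : g * x⁻¹ * g⁻¹ = (g * x * g⁻¹)⁻¹ := by group
    rw [h]
    exact inv_mem hx

theorem NN_normal {r : ℕ} {R : Subgroup (FG r)} [hR : R.Normal] (m : ℕ) : (NN R m).Normal := by
  have h := closure_normal (R := R) m
  unfold NN
  infer_instance

/-! ### counting -/

theorem card_sigma' {J Ω : Type} [Finite J] [Finite Ω] (A : J → Ω → Prop) [Fintype J] :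
    Nat.card {q : J × Ω // A q.1 q.2} = ∑ j, Nat.card {c : Ω // A j c} := by
  rw [← Nat.card_sigma]
  refine Nat.card_congr ⟨fun q => ⟨q.1.1, q.1.2, q.2⟩, fun s => ⟨(s.1, s.2.1), s.2.2⟩, ?_, ?_⟩
  · intro q
    rfl
  · intro s
    rfl

theorem bad_le {r : ℕ} {J Ω : Type} [Fintype J] [Finite Ω] (γ : J → FG r)
    (θ : Fin r → Equiv.Perm J) (σ : FG r →* Equiv.Perm Ω) (N : Subgroup (FG r)) (η b : ℝ)
    (hb : 0 ≤ b) (i : Fin r)
    (hA : (Nat.card {j : J // (FreeGroup.of i * γ j)⁻¹ * γ (θ i j) ∉ N} : ℝ) ≤ η * Nat.card J)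
    (hN : ∀ j, (FreeGroup.of i * γ j)⁻¹ * γ (θ i j) ∈ N →
      (Nat.card {c : Ω // σ ((FreeGroup.of i * γ j)⁻¹ * γ (θ i j)) c ≠ c} : ℝ) ≤ b * Nat.card Ω) :
    (Nat.card {q : J × Ω // σ (γ (θ i q.1)) q.2 ≠ σ (FreeGroup.of i * γ q.1) q.2} : ℝ) ≤
      (η + b) * Nat.card J * Nat.card Ω := by
  classical
  rw [card_sigma' (fun j c => σ (γ (θ i j)) c ≠ σ (FreeGroup.of i * γ j) c)]
  push_cast
  have h1 : ∀ j, (Nat.card {c : Ω // σ (γ (θ i j)) c ≠ σ (FreeGroup.of i * γ j) c} : ℝ) ≤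
      b * Nat.card Ω + (if (FreeGroup.of i * γ j)⁻¹ * γ (θ i j) ∉ N then (1 : ℝ) else 0) *
        Nat.card Ω := by
    intro j
    by_cases hj : (FreeGroup.of i * γ j)⁻¹ * γ (θ i j) ∈ N
    · rw [if_neg (not_not.2 hj)]
      have h2 := hN j hj
      have h3 : Nat.card {c : Ω // σ (γ (θ i j)) c ≠ σ (FreeGroup.of i * γ j) c} =
          Nat.card {c : Ω // σ ((FreeGroup.of i * γ j)⁻¹ * γ (θ i j)) c ≠ c} := by
        refine Nat.card_congr (Equiv.subtypeEquivRight fun c => not_congr ?_)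
        rw [map_mul σ ((FreeGroup.of i * γ j)⁻¹), map_inv, Equiv.Perm.mul_apply,
          Equiv.Perm.inv_eq_iff_eq]
      rw [h3]
      linarith
    · rw [if_pos hj]
      have h2 : (Nat.card {c : Ω // σ (γ (θ i j)) c ≠ σ (FreeGroup.of i * γ j) c} : ℝ) ≤
          Nat.card Ω := by
        exact_mod_cast Nat.card_le_card_of_injective _ Subtype.val_injective
      have h3 : (0 : ℝ) ≤ b * Nat.card Ω := by positivity
      linarith
  refine (Finset.sum_le_sum fun j _ => h1 j).trans ?_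
  rw [Finset.sum_add_distrib, Finset.sum_const, ← Finset.sum_mul, Finset.sum_boole]
  have h2 : (Nat.card {j : J // (FreeGroup.of i * γ j)⁻¹ * γ (θ i j) ∉ N}) =
      (Finset.univ.filter fun j => (FreeGroup.of i * γ j)⁻¹ * γ (θ i j) ∉ N).card := by
    rw [Nat.card_eq_fintype_card, Fintype.card_subtype]
  rw [h2] at hA
  have h3 : (Finset.univ : Finset J).card = Nat.card J := by
    rw [Nat.card_eq_fintype_card]
    rfl
  rw [h3, nsmul_eq_mul]
  have h4 : (0 : ℝ) ≤ Nat.card Ω := by positivity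
  have h5 := mul_le_mul_of_nonneg_right hA h4
  nlinarith

/-! ### copies of a finite action together with fixed points -/

/-- `q` copies of `Y` and `s` fixed points. -/
def act {r : ℕ} {Y : Type} (q s : ℕ) (τ : FG r →* Equiv.Perm Y) :
    FG r →* Equiv.Perm ((Fin q × Y) ⊕ Fin s) where
  toFun w := Equiv.sumCongr (Equiv.prodCongr (Equiv.refl _) (τ w)) (Equiv.refl _)
  map_one' := by
    ext x
    rcases x with ⟨a, y⟩ | b <;> simp
  map_mul' w w' := by
    ext x
    rcases x with ⟨a, y⟩ | b <;> simp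

theorem act_inl {r : ℕ} {Y : Type} (q s : ℕ) (τ : FG r →* Equiv.Perm Y) (w : FG r) (x : Fin q × Y) :
    act q s τ w (Sum.inl x) = Sum.inl (x.1, τ w x.2) := rfl

theorem act_inr {r : ℕ} {Y : Type} (q s : ℕ) (τ : FG r →* Equiv.Perm Y) (w : FG r) (b : Fin s) :
    act q s τ w (Sum.inr b) = Sum.inr b := rfl

theorem act_eq_one {r : ℕ} {Y : Type} (q s : ℕ) (τ : FG r →* Equiv.Perm Y) (w : FG r)
    (h : τ w = 1) : act q s τ w = 1 := by
  ext x
  rcases x with ⟨a, y⟩ | b
  · rw [act_inl, h]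
    rfl
  · rfl

theorem card_act {Y : Type} [Finite Y] (q s : ℕ) :
    Nat.card ((Fin q × Y) ⊕ Fin s) = q * Nat.card Y + s := by
  rw [Nat.card_sum, Nat.card_prod, Nat.card_fin, Nat.card_fin]

theorem freq_act {r : ℕ} {Y : Type} [Finite Y] [Nonempty Y] (q s : ℕ) (hs : s ≤ Nat.card Y)
    (hqs : 0 < q * Nat.card Y + s)
    (τ : FG r →* Equiv.Perm Y) (D P : Finset (FG r)) :
    |freq τ D P - freq (act q s τ) D P| ≤ (Nat.card Y : ℝ) / (q * Nat.card Y + s : ℕ) := by
  unfold freq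
  rw [card_act]
  have h1 : Nat.card {ω : (Fin q × Y) ⊕ Fin s // ∀ w ∈ D, (act q s τ w ω = ω ↔ w ∈ P)} =
      q * Nat.card {y : Y // ∀ w ∈ D, (τ w y = y ↔ w ∈ P)} +
      Nat.card {b : Fin s // ∀ w ∈ D, (act q s τ w (Sum.inr b) = Sum.inr b ↔ w ∈ P)} := by
    rw [Nat.card_congr Equiv.subtypeSum, Nat.card_sum]
    congr 1
    have h2 : ∀ x : Fin q × Y, (∀ w ∈ D, (act q s τ w (Sum.inl x) = Sum.inl x ↔ w ∈ P)) ↔
        ∀ w ∈ D, (τ w x.2 = x.2 ↔ w ∈ P) := by
      intro x
      refine forall₂_congr fun w _ => ?_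
      have h3 : (act q s τ w (Sum.inl x) = Sum.inl x) ↔ τ w x.2 = x.2 := by
        rw [act_inl]
        constructor
        · intro h
          have h' := Sum.inl.inj h
          exact congrArg Prod.snd h'
        · intro h
          rw [h]
      rw [h3]
    rw [Nat.card_congr (Equiv.subtypeEquivRight h2)]
    have e : {x : Fin q × Y // ∀ w ∈ D, (τ w x.2 = x.2 ↔ w ∈ P)} ≃
        Fin q × {y : Y // ∀ w ∈ D, (τ w y = y ↔ w ∈ P)} :=
      ⟨fun x => (x.1.1, ⟨x.1.2, x.2⟩), fun x => ⟨(x.1, x.2.1), x.2.2⟩, fun _ => rfl, fun _ => rfl⟩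
    rw [Nat.card_congr e, Nat.card_prod, Nat.card_fin]
  rw [h1]
  have h2 : Nat.card {b : Fin s // ∀ w ∈ D, (act q s τ w (Sum.inr b) = Sum.inr b ↔ w ∈ P)} ≤ s := by
    have := Nat.card_le_card_of_injective
      (Subtype.val : {b : Fin s // ∀ w ∈ D, (act q s τ w (Sum.inr b) = Sum.inr b ↔ w ∈ P)} → Fin s)
      Subtype.val_injective
    rwa [Nat.card_fin] at this
  have h3 : Nat.card {y : Y // ∀ w ∈ D, (τ w y = y ↔ w ∈ P)} ≤ Nat.card Y :=
    Nat.card_le_card_of_injective _ Subtype.val_injective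
  have h4 : 0 < Nat.card Y := Nat.card_pos
  generalize Nat.card {b : Fin s // ∀ w ∈ D, (act q s τ w (Sum.inr b) = Sum.inr b ↔ w ∈ P)} = b
    at *
  generalize Nat.card {y : Y // ∀ w ∈ D, (τ w y = y ↔ w ∈ P)} = a at *
  generalize Nat.card Y = c at *
  clear h1
  have hc : (0 : ℝ) < c := by exact_mod_cast h4
  have hn : (0 : ℝ) < ((q * c + s : ℕ) : ℝ) := by exact_mod_cast hqs
  have hb : (b : ℝ) ≤ s := by exact_mod_cast h2
  have ha : (a : ℝ) ≤ c := by exact_mod_cast h3
  have hs' : (s : ℝ) ≤ c := by exact_mod_cast hs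
  have hb0 : (0 : ℝ) ≤ b := by positivity
  have ha0 : (0 : ℝ) ≤ a := by positivity
  have hs0 : (0 : ℝ) ≤ s := by positivity
  have key : (a : ℝ) / c - ((q * a + b : ℕ) : ℝ) / ((q * c + s : ℕ) : ℝ) =
      (a * s - b * c) / (c * ((q * c + s : ℕ) : ℝ)) := by
    have hn' : ((q : ℝ) * c + s) ≠ 0 := by
      have := hn.ne'
      push_cast at this
      exact this
    push_cast
    rw [div_sub_div _ _ hc.ne' hn']
    congr 1
    ring
  rw [key, abs_div, abs_of_pos (mul_pos hc hn), div_le_div_iff₀ (mul_pos hc hn) hn]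
  have h5 : |(a : ℝ) * s - b * c| ≤ c * c := by
    rw [abs_le]
    constructor
    · nlinarith [mul_nonneg ha0 hs0, mul_le_mul_of_nonneg_right (hb.trans hs') hc.le]
    · nlinarith [mul_nonneg hb0 hc.le, mul_le_mul ha hs' hs0 hc.le]
  calc |(a : ℝ) * s - b * c| * ((q * c + s : ℕ) : ℝ) ≤ (c * c) * ((q * c + s : ℕ) : ℝ) :=
        mul_le_mul_of_nonneg_right h5 hn.le
    _ = c * (c * ((q * c + s : ℕ) : ℝ)) := by ring

/-! ### the bounded case -/

theorem bounded_case {r : ℕ} (N : Subgroup (FG r)) (U : Ultrafilter ℕ) (n : ℕ → ℕ)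
    (σ : ∀ k, FG r →* Equiv.Perm (Fin (n k))) (hn : ∀ k, 0 < n k)
    (hN : ∀ w ∈ N, Tendsto (fun k => (Nat.card {ω : Fin (n k) // σ k w ω ≠ ω} : ℝ) / n k) U
      (𝓝 0)) (M : ℕ) (hM : ∀ᶠ k in (U : Filter ℕ), n k < M) :
    ∀ᶠ k in (U : Filter ℕ), N ≤ (σ k).ker := by
  have hfin : ∀ a : Fin M, Finite (FG r →* Equiv.Perm (Fin (a : ℕ))) := fun a =>
    Finite.of_equiv _ (FreeGroup.lift (α := Fin r) (β := Equiv.Perm (Fin (a : ℕ))))
  have h1 : ∀ᶠ k in (U : Filter ℕ), ∃ s : (Σ a : Fin M, (FG r →* Equiv.Perm (Fin (a : ℕ)))),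
      ∃ h : n k < M, s = ⟨⟨n k, h⟩, σ k⟩ := by
    filter_upwards [hM] with k hk
    exact ⟨_, hk, rfl⟩
  rw [Ultrafilter.eventually_exists_iff] at h1
  obtain ⟨s, hs⟩ := h1
  have h2 : ∀ w ∈ N, s.2 w = 1 := by
    intro w hw
    have hM0 : 0 < M := by
      obtain ⟨k, hk⟩ := hM.exists
      omega
    have h3 : ∀ᶠ k in (U : Filter ℕ),
        (Nat.card {ω : Fin (n k) // σ k w ω ≠ ω} : ℝ) / n k < 1 / M := by
      refine (hN w hw).eventually (gt_mem_nhds ?_)
      positivity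
    obtain ⟨k, ⟨hk, hk'⟩, h3⟩ := (hs.and h3).exists
    have h4 : (0 : ℝ) < n k := by exact_mod_cast hn k
    have h5 : (Nat.card {ω : Fin (n k) // σ k w ω ≠ ω} : ℝ) < 1 := by
      rw [div_lt_div_iff₀ h4 (by positivity)] at h3
      have h6 : (n k : ℝ) < M := by exact_mod_cast hk
      have h7 : (0 : ℝ) < M := by positivity
      by_contra h8
      push Not at h8
      nlinarith
    have h6 : Nat.card {ω : Fin (n k) // σ k w ω ≠ ω} = 0 := by
      have : Nat.card {ω : Fin (n k) // σ k w ω ≠ ω} < 1 := by exact_mod_cast h5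
      omega
    have h7 : σ k w = 1 := by
      ext ω
      by_contra h8
      have h9 : IsEmpty {ω : Fin (n k) // σ k w ω ≠ ω} := by
        rw [Nat.card_eq_zero] at h6
        rcases h6 with h6 | h6
        · exact h6
        · exact absurd (Finite.of_injective _ Subtype.val_injective) (not_finite_iff_infinite.2 h6)
      exact h9.false ⟨ω, fun h => h8 (by rw [h]; rfl)⟩
    rw [hk']
    exact h7
  filter_upwards [hs] with k hk w hw
  obtain ⟨hk, hk'⟩ := hk
  have h3 := h2 w hw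
  rw [hk'] at h3
  exact h3

/-! ### the main case -/

theorem SEQ (h1 : T_MATCH) (h2 : T_AMEN) (h3 : T_LIM) (h4 : T_APPR) : T_SEQ := by
  intro r m R hR hcomm U n σ hn hN ε hε
  have hNn : (NN R m).Normal := NN_normal m
  have hNR : NN R m ≤ R := NN_le m
  have hRN : ⁅R, R⁆ ≤ NN R m := le_sup_left
  set η₀ : ℝ := ε / (16 * (r + 1)) with hη₀
  have hη₀pos : 0 < η₀ := by positivity
  obtain ⟨J, hJ, hJ', γ, θ, hA⟩ := h2 r R (NN R m) hR hNn hcomm hNR hRN η₀ hη₀pos
  obtain ⟨D, δ, n₀, hδ, hmatch⟩ := h1 r J γ θ (ε / 2) (by positivity)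
  obtain ⟨μ, hμ, hlim⟩ := h3 r (NN R m) U n σ hn hN
  obtain ⟨Y, hY, hY', τ, hτ, hfr⟩ := h4 r m R hR hcomm μ hμ D (δ / 4) (by positivity)
  obtain ⟨n₁, hn₁⟩ := exists_nat_gt (4 * (Nat.card Y : ℝ) / δ)
  rcases Ultrafilter.eventually_or.1 (Filter.Eventually.of_forall
    (f := (U : Filter ℕ)) fun k => lt_or_ge (n k) (max n₀ n₁)) with hb | hb
  · filter_upwards [bounded_case (NN R m) U n σ hn hN _ hb] with k hk
    refine ⟨σ k, hk, fun i => ?_⟩
    have h5 : Nat.card {ω : Fin (n k) // σ k (FreeGroup.of i) ω ≠ σ k (FreeGroup.of i) ω} = 0 := by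
      have : IsEmpty {ω : Fin (n k) // σ k (FreeGroup.of i) ω ≠ σ k (FreeGroup.of i) ω} :=
        ⟨fun x => x.2 rfl⟩
      exact Nat.card_of_isEmpty
    rw [h5]
    simp only [Nat.cast_zero]
    positivity
  · have hev1 : ∀ᶠ k in (U : Filter ℕ), ∀ P ∈ D.powerset,
        |freq (σ k) D P - μ.real (cyl D P)| ≤ δ / 4 := by
      rw [Filter.eventually_all_finset]
      intro P hP
      have h5 := (hlim D P hP).sub_const (μ.real (cyl D P))
      rw [sub_self] at h5
      have h6 := h5.abs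
      rw [abs_zero] at h6
      exact (h6.eventually (gt_mem_nhds (show (0 : ℝ) < δ / 4 by positivity))).mono
        fun k hk => hk.le
    have hev2 : ∀ᶠ k in (U : Filter ℕ), ∀ i j,
        (FreeGroup.of i * γ j)⁻¹ * γ (θ i j) ∈ NN R m →
        (Nat.card {c : Fin (n k) // σ k ((FreeGroup.of i * γ j)⁻¹ * γ (θ i j)) c ≠ c} : ℝ) ≤
          η₀ * Nat.card (Fin (n k)) := by
      rw [Filter.eventually_all]
      intro i
      rw [Filter.eventually_all]
      intro j
      by_cases hw : (FreeGroup.of i * γ j)⁻¹ * γ (θ i j) ∈ NN R m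
      · filter_upwards [(hN _ hw).eventually (gt_mem_nhds hη₀pos)] with k hk _
        have h5 : (0 : ℝ) < n k := by exact_mod_cast hn k
        rw [div_lt_iff₀ h5] at hk
        rw [Nat.card_fin]
        exact hk.le
      · exact Filter.Eventually.of_forall fun k h => absurd h hw
    filter_upwards [hb, hev1, hev2] with k hk hk1 hk2
    have hYpos : 0 < Nat.card Y := Nat.card_pos
    set q := n k / Nat.card Y with hq
    set s := n k % Nat.card Y with hs
    have hqs : q * Nat.card Y + s = n k := by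
      rw [hq, hs, mul_comm]
      exact Nat.div_add_mod _ _
    have hslt : s ≤ Nat.card Y := (Nat.mod_lt _ hYpos).le
    have hnk : (0 : ℝ) < n k := by exact_mod_cast hn k
    have hsmall : (Nat.card Y : ℝ) / n k ≤ δ / 4 := by
      rw [div_le_iff₀ hnk]
      have h5 : (n₁ : ℝ) ≤ n k := by exact_mod_cast (le_max_right n₀ n₁).trans hk
      have h6 := hn₁.trans_le h5
      rw [div_lt_iff₀ hδ] at h6
      linarith
    obtain ⟨Φ, hΦ⟩ := hmatch (Fin (n k)) ((Fin q × Y) ⊕ Fin s) (σ k) (act q s τ) (2 * η₀)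
      (by positivity) (by rw [card_act, hqs, Nat.card_fin])
      (by rw [Nat.card_fin]; exact (le_max_left n₀ n₁).trans hk)
      (by
        intro P hP
        have h5 := hk1 P hP
        have h6 := hfr P hP
        have h7 := freq_act q s hslt (by rw [hqs]; exact hn k) τ D P
        rw [hqs] at h7
        have h8 : freq (σ k) D P - freq (act q s τ) D P =
            (freq (σ k) D P - μ.real (cyl D P)) - (freq τ D P - μ.real (cyl D P)) +
              (freq τ D P - freq (act q s τ) D P) := by ring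
        rw [h8]
        refine (abs_add_le _ _).trans ?_
        have h9 := abs_sub (freq (σ k) D P - μ.real (cyl D P)) (freq τ D P - μ.real (cyl D P))
        linarith)
      (by
        intro i
        have h5 := bad_le γ θ (σ k) (NN R m) η₀ η₀ hη₀pos.le i (hA i) (fun j hj => hk2 i j hj)
        linarith)
      (by
        intro i
        have h5 := bad_le γ θ (act q s τ) (NN R m) η₀ η₀ hη₀pos.le i (hA i) (fun j hj => by
          have h6 : τ ((FreeGroup.of i * γ j)⁻¹ * γ (θ i j)) = 1 := hτ hj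
          have h7 := act_eq_one q s τ _ h6
          have h8 : IsEmpty {c : (Fin q × Y) ⊕ Fin s //
              act q s τ ((FreeGroup.of i * γ j)⁻¹ * γ (θ i j)) c ≠ c} :=
            ⟨fun x => x.2 (DFunLike.congr_fun h7 x.1)⟩
          rw [Nat.card_of_isEmpty, Nat.cast_zero]
          positivity)
        linarith)
    refine ⟨(Φ.symm.permCongrHom.toMonoidHom).comp (act q s τ), ?_, fun i => ?_⟩
    · intro w hw
      have h6 : τ w = 1 := hτ hw
      rw [MonoidHom.mem_ker, MonoidHom.comp_apply, act_eq_one q s τ w h6, map_one]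
    · have h5 := hΦ i
      have h6 : Nat.card {ω : Fin (n k) // σ k (FreeGroup.of i) ω ≠
          (Φ.symm.permCongrHom.toMonoidHom).comp (act q s τ) (FreeGroup.of i) ω} =
          Nat.card {ω : Fin (n k) // Φ (σ k (FreeGroup.of i) ω) ≠
            act q s τ (FreeGroup.of i) (Φ ω)} := by
        refine Nat.card_congr (Equiv.subtypeEquivRight fun ω => not_congr ?_)
        exact (Equiv.eq_symm_apply Φ)
      rw [h6]
      refine h5.trans ?_
      rw [Nat.card_fin]
      refine mul_le_mul_of_nonneg_right ?_ hnk.le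
      have h7 : 4 * (r : ℝ) * (2 * η₀) ≤ ε / 2 := by
        rw [hη₀]
        have h8 : (0 : ℝ) < 16 * ((r : ℝ) + 1) := by positivity
        rw [show 4 * (r : ℝ) * (2 * (ε / (16 * (r + 1)))) = (8 * r * ε) / (16 * (r + 1)) by ring,
          div_le_iff₀ h8]
        nlinarith
      linarith

end Pool.Agent.H47.PS
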