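import Pool.Agent.H47.PS.Defs
import Pool.Agent.H47.PL.Targets
import Pool.Agent.H20.RKS.RUN
import Pool.Agent.H4.RKS.MED

/-!
Search in random and in planted k-CNFs at the scale of SETH (MP_c62aed_lc): derivations from the
clauses which follow from few clauses of the formula: the adversary.
-/

set_option autoImplicit false

namespace Pool.Agent.H47.PS

open Finset Pool.Agent.H97.RK Pool.Agent.H47.PL
open Pool.Agent.H4.RKS (G exmin med_core)
open Pool.Agent.H20.RKS (dst_triangle dst_self ph ph_le ph_add)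

variable {n k m : ℕ}

/-- the lines `0, .., S - 1` are correct -/
def Der (F : PS.Fml n k m) (S : ℕ) (line : ℕ → Finset (Fin n × Bool)) (rule : ℕ → PS.Rule n) :
    Prop :=
  ∀ i, i < S → PS.Correct F line i (rule i)

/-- (STD) one step of the path. -/
def T_STD : Prop :=
  ∀ (n k m : ℕ) (F : PS.Fml n k m) (j t d e s₀ : ℕ), Par F j t d e s₀ → n ≤ k * t →
    ∀ (S : ℕ) (line : ℕ → Clause n) (rule : ℕ → PS.Rule n), PS.Der F S line rule →
    ∀ (i : ℕ) (y : Fin n → Bool) (A W : Finset (Fin n)) (J : Finset (Fin m)), i < S →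
    St F j t y A W J → Falsified (line i) y → vs (line i) ⊆ A → A.card + 1 + e + d ≤ n →
    ∃ (i' : ℕ) (y' : Fin n → Bool) (A' W' : Finset (Fin n)) (J' : Finset (Fin m))
      (q : List (Fin n)), i' < i ∧ St F j t y' A' W' J' ∧ Falsified (line i') y' ∧
      vs (line i') ⊆ A' ∧ A' = A ∪ q.toFinset ∧ A'.card ≤ A.card + 1 ∧
      (∀ u ∈ A, y' u = y u) ∧
      dst y' y + J.card ≤ J'.card ∧ ∀ r l, PS.Path rule r i l → PS.Path rule r i' (q ++ l)

/-- (RND) the path ends in a wide line; the variables in `A` are fixed. -/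
def T_RND : Prop :=
  ∀ (n k m : ℕ) (F : PS.Fml n k m) (j t d e s₀ : ℕ), Par F j t d e s₀ → n ≤ k * t → 1 ≤ d →
    ∀ (S : ℕ) (line : ℕ → Clause n) (rule : ℕ → PS.Rule n), PS.Der F S line rule →
    ∀ R h r : ℕ, r < S → (∀ (i : ℕ) (l : List (Fin n)), PS.Path rule r i l →
      (univ.filter fun v => R < l.count v).card ≤ h) →
    ∀ (y : Fin n → Bool) (A W : Finset (Fin n)) (J : Finset (Fin m)), St F j t y A W J →
    Falsified (line r) y → vs (line r) ⊆ A → ∀ x : Fin n → Bool, (∀ u ∈ A ∪ W, x u = y u) →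
    ∃ i, i < S ∧ ∃ y' : Fin n → Bool, Falsified (line i) y' ∧
      n ≤ (A ∪ vs (line i)).card + (h + 3 * d) ∧ dst y' x ≤ 2 * t * (n * R / d + 1)

/-- (NC1) a derivation of a line which is false in a state is long. -/
def T_NC1 : Prop :=
  ∀ (n k m : ℕ) (F : PS.Fml n k m) (j t d e s₀ : ℕ), Par F j t d e s₀ → n ≤ k * t → 1 ≤ d →
    ∀ (S : ℕ) (line : ℕ → Clause n) (rule : ℕ → PS.Rule n), PS.Der F S line rule →
    ∀ R h r : ℕ, r < S → (∀ (i : ℕ) (l : List (Fin n)), PS.Path rule r i l →
      (univ.filter fun v => R < l.count v).card ≤ h) →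
    ∀ (y : Fin n → Bool) (A W : Finset (Fin n)) (J : Finset (Fin m)), St F j t y A W J →
    Falsified (line r) y → vs (line r) ⊆ A →
    2 ^ n ≤ S * (2 ^ (A.card + e + h + 3 * d) * bl n (2 * t * (n * R / d + 1)))

/-- (MDD) a line of medium strength. -/
def T_MDD : Prop :=
  ∀ (n k m : ℕ) (F : PS.Fml n k m) (j t d e s₀ : ℕ), Par F j t d e s₀ → n ≤ k * t →
    ∀ (S : ℕ) (line : ℕ → Clause n) (rule : ℕ → PS.Rule n), PS.Der F S line rule →
    ∀ (y : Fin n → Bool) (A W : Finset (Fin n)) (J : Finset (Fin m)), St F j t y A W J →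
    ∀ r, r < S → Falsified (line r) y → vs (line r) ⊆ A →
    ∃ i, i < S ∧ ∃ z : Fin n → Bool, (∀ u ∈ A, z u = y u) ∧ Falsified (line i) z ∧
      n ≤ (A ∪ vs (line i)).card + (d + 2 * t)

/-- (NC2) a derivation of a line which is false in a state is long. -/
def T_NC2 : Prop :=
  ∀ (n k m : ℕ) (F : PS.Fml n k m) (j t d e s₀ : ℕ), Par F j t d e s₀ → n ≤ k * t →
    ∀ (S : ℕ) (line : ℕ → Clause n) (rule : ℕ → PS.Rule n), PS.Der F S line rule →
    ∀ (y : Fin n → Bool) (A W : Finset (Fin n)) (J : Finset (Fin m)), St F j t y A W J →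
    ∀ r, r < S → Falsified (line r) y → vs (line r) ⊆ A →
    ∃ N, n ≤ A.card + e + N ∧ N ≤ n ∧
      3 ^ N ≤ S * (2 ^ N * bl N (d + 2 * t) * bl N t) + 2 ^ N * bl N (e + d)

/-- (RSV) the interface: `Ex` is excluded in the states by (NC1) and (NC2). -/
def T_RSV : Prop :=
  ∀ (n k m : ℕ) (F : PS.Fml n k m) (j t d e s₀ : ℕ), Par F j t d e s₀ → n ≤ k * t → 1 ≤ d →
    ∀ (K s D : ℕ) (ρ : ℝ), 1 ≤ K → 0 ≤ ρ → D + e + d ≤ n →
    (∀ S, S ≤ s → 2 ^ n ≤ S * (2 ^ (D + e + ⌊ρ * n⌋₊ + 3 * d) *
      bl n (2 * t * (n * (k / K) / d + 1))) → ∀ N, n ≤ D + e + N → N ≤ n →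
      3 ^ N ≤ S * (2 ^ N * bl N (d + 2 * t) * bl N t) + 2 ^ N * bl N (e + d) → False) →
    ∃ Res, Rsv F D e (PS.Excl F K ρ s) Res

/-- few clauses are satisfied by some assignment which agrees with the state -/
theorem few_sat (hFIX : T_FIX) (F : PS.Fml n k m) {j t d e s₀ : ℕ} (hP : Par F j t d e s₀)
    (y : Fin n → Bool) (A W : Finset (Fin n)) (J : Finset (Fin m)) (hSt : St F j t y A W J)
    (C : Finset (Fin m)) (hC : C.card ≤ s₀) :
    ∃ z : Fin n → Bool, (∀ u ∈ A ∪ W, z u = y u) ∧ ∀ c ∈ C, ∃ p, z (F c p).1 = (F c p).2 := by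
  classical
  rcases Nat.eq_zero_or_pos n with hn | hn
  · subst hn
    refine ⟨y, fun _ _ => rfl, fun c _ => ?_⟩
    exact ((F c ⟨0, lt_of_le_of_lt (Nat.zero_le _) hP.jk⟩).1).elim0
  · obtain ⟨y', a1, a2, -⟩ := hFIX n k m F j s₀ hP.x1 y (A ∪ W) ⟨0, hn⟩
      (C.filter fun c => Al F y A c ∧ c ∉ J)
      ((card_filter_le _ _).trans hC) (fun c hc => by
        obtain ⟨-, b1, b2⟩ := mem_filter.1 hc
        refine (hSt.out c b2 b1).trans_le (card_le_card ?_)
        intro i hi
        obtain ⟨-, hi⟩ := mem_filter.1 hi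
        exact mem_filter.2 ⟨mem_univ _, fun h => hi (mem_of_mem_erase h)⟩)
    refine ⟨y', fun u hu => a1 u hu, fun c hc => ?_⟩
    by_cases hcJ : c ∈ J
    · obtain ⟨i, hi, hi2⟩ := hSt.sat c hcJ
      exact ⟨i, by rw [a1 _ hi, hi2]⟩
    · by_cases hcA : Al F y A c
      · obtain ⟨i, -, hi⟩ := a2 c (mem_filter.2 ⟨hc, hcA, hcJ⟩)
        exact ⟨i, hi⟩
      · unfold Al at hcA
        push Not at hcA
        obtain ⟨i, hi, hi2⟩ := hcA
        exact ⟨i, by rw [a1 _ (mem_union_left _ hi), hi2]⟩

private theorem dst_self' {n : ℕ} (y : Fin n → Bool) : dst y y = 0 := by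
  unfold dst
  simp

private theorem vs_mono' {n : ℕ} {C D : Clause n} (h : C ⊆ D) : vs C ⊆ vs D :=
  image_subset_image h

/-- the step to a premise of a resolution -/
private theorem step' {n k m : ℕ} (hASK : T_ASK) (F : Fml n k m) {j t d e s₀ : ℕ}
    (hP : Par F j t d e s₀) (line : ℕ → Clause n) (rule : ℕ → PS.Rule n)
    (i : ℕ) (y : Fin n → Bool) (A W : Finset (Fin n)) (J : Finset (Fin m))
    (hSt : St F j t y A W J) (hF : Falsified (line i) y) (hv : vs (line i) ⊆ A)
    (hA : A.card + 1 + e + d ≤ n) (x : Fin n) (a : ℕ) (s : Bool) (hai : a < i)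
    (hs : y x ≠ s) (hl : line a ⊆ insert (x, s) (line i))
    (hp : ∀ r l, PS.Path rule r i l → PS.Path rule r a (x :: l)) :
    ∃ (i' : ℕ) (y' : Fin n → Bool) (A' W' : Finset (Fin n)) (J' : Finset (Fin m))
      (q : List (Fin n)), i' < i ∧ St F j t y' A' W' J' ∧ Falsified (line i') y' ∧
      vs (line i') ⊆ A' ∧ A' = A ∪ q.toFinset ∧ A'.card ≤ A.card + 1 ∧
      (∀ u ∈ A, y' u = y u) ∧
      dst y' y + J.card ≤ J'.card ∧ ∀ r l, PS.Path rule r i l → PS.Path rule r i' (q ++ l) := by
  have hFa : Falsified (line a) y := by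
    intro l hla
    rcases mem_insert.1 (hl hla) with h | h
    · rw [h]
      exact hs
    · exact hF l h
  have hva : vs (line a) ⊆ insert x A := by
    intro u hu
    obtain ⟨l, hla, rfl⟩ := mem_image.1 hu
    rcases mem_insert.1 (hl hla) with h | h
    · rw [h]
      exact mem_insert_self _ _
    · exact mem_insert_of_mem (hv (mem_image_of_mem _ h))
  have hins : insert x A = A ∪ [x].toFinset := by
    ext u
    simp only [mem_insert, List.toFinset_cons, List.toFinset_nil, insert_empty_eq, mem_union,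
      mem_singleton]
    tauto
  by_cases hx : x ∈ A
  · refine ⟨a, y, A, W, J, [x], hai, hSt, hFa, ?_, ?_, Nat.le_succ _, fun _ _ => rfl, ?_,
      fun r l h => hp r l h⟩
    · rwa [insert_eq_of_mem hx] at hva
    · rwa [insert_eq_of_mem hx] at hins
    · rw [dst_self', zero_add]
  · obtain ⟨y', W', J', h1, h2, h3⟩ := hASK n k m F j t d e s₀ hP y A W J x hSt hx hA
    refine ⟨a, y', insert x A, W', J', [x], hai, h1, ?_, hva, hins, ?_,
      fun u hu => h2 u (mem_insert_of_mem hu), h3, fun r l h => hp r l h⟩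
    · intro l hla
      rw [h2 l.1 (hva (mem_image_of_mem _ hla))]
      exact hFa l hla
    · exact card_insert_le _ _

theorem pf_STD (hASK : T_ASK) (hFIX : T_FIX) : PS.T_STD := by
  intro n k m F j t d e s₀ hP hkt S line rule hR i y A W J hi hSt hF hv hA
  have hC := hR i hi
  rcases hr : rule i with _ | a | ⟨x, a, b⟩
  · exfalso
    rw [hr] at hC
    obtain ⟨C, hC1, hC2⟩ := hC
    have hk : 0 < k := lt_of_le_of_lt (Nat.zero_le _) hP.jk
    have h1 : C.card ≤ t := Nat.le_of_mul_le_mul_left (hC1.trans hkt) hk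
    have h2 : C.card ≤ s₀ := by
      have := hP.ts
      omega
    obtain ⟨z, hz, hz2⟩ := few_sat hFIX F hP y A W J hSt C h2
    obtain ⟨l, hl, hl2⟩ := hC2 z hz2
    rw [hz _ (mem_union_left _ (hv (mem_image_of_mem _ hl)))] at hl2
    exact hF l hl hl2
  · rw [hr] at hC
    obtain ⟨hai, hl⟩ := hC
    refine ⟨a, y, A, W, J, [], hai, hSt, fun l h => hF l (hl h), (vs_mono' hl).trans hv, ?_,
      Nat.le_succ _, fun _ _ => rfl, ?_, fun r l h => PS.Path.weak h hr⟩
    · rw [List.toFinset_nil, union_empty]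
    · rw [dst_self', zero_add]
  · rw [hr] at hC
    obtain ⟨hai, hbi, hla, hlb⟩ := hC
    by_cases hyx : y x = true
    · exact step' hASK F hP line rule i y A W J hSt hF hv hA x b false hbi (by rw [hyx]; simp)
        hlb fun r l h => PS.Path.right h hr
    · exact step' hASK F hP line rule i y A W J hSt hF hv hA x a true hai hyx
        hla fun r l h => PS.Path.left h hr

private theorem st_congr {n k m : ℕ} {F : Fml n k m} {j t : ℕ} {y x : Fin n → Bool}
    {A W : Finset (Fin n)} {J : Finset (Fin m)} (h : St F j t y A W J)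
    (hx : ∀ u ∈ A ∪ W, x u = y u) : St F j t x A W J := by
  refine ⟨?_, h.mem, ?_, ?_, h.crd, h.lt⟩
  · intro c hc
    obtain ⟨i, hi1, hi2⟩ := h.sat c hc
    exact ⟨i, hi1, by rw [hx _ hi1, hi2]⟩
  · intro c hc i hi
    rw [hx _ (mem_union_left _ (mem_sdiff.1 hi).1)]
    exact h.alv c hc i hi
  · intro c hc hal
    refine h.out c hc fun i hi => ?_
    rw [← hx _ (mem_union_left _ hi)]
    exact hal i hi

theorem pf_RND (hSTD : PS.T_STD) (hFGT : T_FGT) : PS.T_RND := by
  intro n k m F j t d e s₀ hP hkt hd S line rule hder R h r hr hpath yy AA WW JJ hst0 hfal0 hvs0 x hx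
  have ht1 := hP.t1
  have hed := hP.ed
  have hstx : St F j t x AA WW JJ := st_congr hst0 hx
  have hfalx : Falsified (line r) x := by
    intro l hl
    rw [hx _ (mem_union_left _ (hvs0 (Finset.mem_image_of_mem _ hl)))]
    exact hfal0 l hl
  by_cases hn : n ≤ (AA ∪ vs (line r)).card + (h + 3 * d)
  · refine ⟨r, hr, x, hfalx, hn, ?_⟩
    rw [dst_self]
    exact Nat.zero_le _
  · push Not at hn
    rw [Finset.union_eq_left.2 hvs0] at hn
    have key : ∀ i, i < S → ∀ (l0 q : List (Fin n)) (A A0 W : Finset (Fin n)) (J : Finset (Fin m))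
        (y : Fin n → Bool) (p : ℕ), PS.Path rule r i (q ++ l0) → St F j t y A W J →
        Falsified (line i) y → vs (line i) ⊆ A → AA ⊆ A → A ⊆ A0 ∪ q.toFinset →
        A0.card + h + 3 * d < n → A.card + 1 + e + d ≤ n → dst y x ≤ 2 * t * p + J.card →
        p * d ≤ ph R l0 → ∃ i, i < S ∧ ∃ y : Fin n → Bool, Falsified (line i) y ∧
          n ≤ (AA ∪ vs (line i)).card + (h + 3 * d) ∧
          dst y x ≤ 2 * t * (n * R / d + 1) := by
      intro i
      induction i using Nat.strong_induction_on with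
      | _ i ih =>
        intro hi l0 q A A0 W J y p hpi hst hfal hvs hAA hA hA0 hAc hdst hph
        obtain ⟨i', y', A', W', J', q', hi', hst', hfal', hvs', hA', hAc', -, hdst', hpi'⟩ :=
          hSTD n k m F j t d e s₀ hP hkt S line rule hder i y A W J hi hst hfal hvs hAc
        have hpath' := hpi' _ _ hpi
        rw [← List.append_assoc] at hpath'
        have hAA' : AA ⊆ A' := by
          rw [hA']
          exact hAA.trans Finset.subset_union_left
        have hsub : A' ⊆ A0 ∪ (q' ++ q).toFinset := by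
          rw [hA', List.toFinset_append]
          apply Finset.union_subset
          · refine hA.trans (Finset.union_subset Finset.subset_union_left ?_)
            exact Finset.subset_union_right.trans Finset.subset_union_right
          · exact Finset.subset_union_left.trans Finset.subset_union_right
        have hd' : dst y' x ≤ 2 * t * p + J'.card := by
          have := dst_triangle y' y x
          omega
        have hi'S : i' < S := hi'.trans hi
        by_cases hc : A'.card + 1 + e + d ≤ n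
        · exact ih i' hi' hi'S l0 (q' ++ q) A' A0 W' J' y' p hpath' hst' hfal' hvs' hAA' hsub hA0
            hc hd' hph
        · have hpR : p ≤ n * R / d := by
            rw [Nat.le_div_iff_mul_le (by omega)]
            exact hph.trans (ph_le R l0)
          have hJ' := hst'.lt
          by_cases hw : n ≤ (AA ∪ vs (line i')).card + (h + 3 * d)
          · refine ⟨i', hi'S, y', hfal', hw, ?_⟩
            have h1 : 2 * t * (p + 1) ≤ 2 * t * (n * R / d + 1) :=
              Nat.mul_le_mul_left _ (by omega)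
            have h2 : 2 * t * (p + 1) = 2 * t * p + 2 * t := by ring
            omega
          · push Not at hw
            have hsub2 : AA ∪ vs (line i') ⊆ A' := Finset.union_subset hAA' hvs'
            obtain ⟨y'', W'', J'', hst'', heq, hdst''⟩ :=
              hFGT n k m F j t d e s₀ hP y' A' (AA ∪ vs (line i')) W' J' hst' hsub2 (by omega)
            have hfal'' : Falsified (line i') y'' := by
              intro l hl
              rw [heq l.1 (mem_union_right _ (Finset.mem_image_of_mem _ hl))]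
              exact hfal' l hl
            have hph' : (p + 1) * d ≤ ph R ((q' ++ q) ++ l0) := by
              have h1 := ph_add R h (q' ++ q) l0 (hpath i' _ hpath')
              have h2 : A'.card ≤ A0.card + (q' ++ q).toFinset.card :=
                (Finset.card_le_card hsub).trans (Finset.card_union_le _ _)
              have h3 : (p + 1) * d = p * d + d := by ring
              omega
            refine ih i' hi' hi'S ((q' ++ q) ++ l0) [] (AA ∪ vs (line i')) (AA ∪ vs (line i'))
              W'' J'' y'' (p + 1) hpath' hst'' hfal'' Finset.subset_union_right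
              Finset.subset_union_left Finset.subset_union_left (by omega) (by omega) ?_ hph'
            have h1 := dst_triangle y'' y' x
            have h2 : 2 * t * (p + 1) = 2 * t * p + 2 * t := by ring
            omega
    refine key r hr [] [] AA AA WW JJ x 0 PS.Path.refl hstx hfalx hvs0
      (Finset.Subset.refl _) Finset.subset_union_left (by omega) (by omega) ?_ ?_
    · rw [dst_self]
      exact Nat.zero_le _
    · omega

theorem pf_NC1 (hRND : PS.T_RND) (hCN1 : T_CN1) : PS.T_NC1 := by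
  classical
  intro n k m F j t d e s₀ hP hkt hd S line rule hD R h r hr hpath y A W J hSt hF hv
  have hW : W.card ≤ e := by
    have h1 := hSt.crd
    have h2 := Nat.mul_le_mul_left j hSt.lt.le
    exact h1.trans (h2.trans hP.je)
  refine hCN1 n S (A.card + e + h + 3 * d) (2 * t * (n * R / d + 1))
    (fun i => (line i).filter fun l => l.1 ∉ A ∪ W) fun x => ?_
  obtain ⟨i, hi, y', hy', hn, hdst⟩ := hRND n k m F j t d e s₀ hP hkt hd S line rule hD R h r hr
    hpath y A W J hSt hF hv (fun u => if u ∈ A ∪ W then y u else x u)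
    (fun u hu => if_pos hu)
  refine ⟨i, hi, fun u => if u ∈ A ∪ W then x u else y' u, ?_, ?_, ?_⟩
  · intro l hl
    rw [mem_filter] at hl
    show (if l.1 ∈ A ∪ W then x l.1 else y' l.1) ≠ l.2
    rw [if_neg hl.2]
    exact hy' l hl.1
  · have h1 : A ∪ vs (line i) ⊆ (A ∪ W) ∪ vs ((line i).filter fun l => l.1 ∉ A ∪ W) := by
      intro u hu
      rw [mem_union] at hu ⊢
      by_cases hu2 : u ∈ A ∪ W
      · exact Or.inl hu2
      · refine Or.inr ?_
        rcases hu with hu | hu
        · exact absurd (mem_union_left _ hu) hu2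
        · unfold vs at hu ⊢
          obtain ⟨l, hl, rfl⟩ := mem_image.1 hu
          exact mem_image_of_mem _ (mem_filter.2 ⟨hl, hu2⟩)
    have h2 := card_le_card h1
    have h3 := card_union_le (A ∪ W) (vs ((line i).filter fun l => l.1 ∉ A ∪ W))
    have h4 := card_union_le A W
    show n ≤ (vs ((line i).filter fun l => l.1 ∉ A ∪ W)).card + (A.card + e + h + 3 * d)
    omega
  · refine le_trans ?_ hdst
    unfold dst
    refine card_le_card fun u hu => ?_
    rw [mem_filter] at hu ⊢
    refine ⟨mem_univ u, ?_⟩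
    have h1 : (if u ∈ A ∪ W then x u else y' u) ≠ x u := hu.2
    show y' u ≠ (if u ∈ A ∪ W then y u else x u)
    by_cases hu2 : u ∈ A ∪ W
    · rw [if_pos hu2] at h1
      exact absurd rfl h1
    · rw [if_neg hu2] at h1
      rw [if_neg hu2]
      exact h1

theorem pf_MDD (hFIX : T_FIX) (hTRS : T_TRS) : PS.T_MDD := by
  classical
  intro n k m F j t d e s₀ hP hkt S line rule hC y A W J hSt r hr hf hvs
  rcases Nat.eq_zero_or_pos n with hn | hn
  · subst hn
    exact ⟨r, hr, y, fun _ _ => rfl, hf, Nat.zero_le _⟩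
  have hQr : ∀ J' : Finset (Fin m), J'.card ≤ 2 * t → G F y A (line r) J' := by
    intro J' hJ'
    obtain ⟨y', a1, a2, -⟩ := hFIX n k m F j s₀ hP.x1 y (A ∪ W) ⟨0, hn⟩
      (J'.filter fun c => Al F y A c ∧ c ∉ J)
      ((card_filter_le _ _).trans (hJ'.trans hP.ts)) (fun c hc => by
        obtain ⟨-, b1, b2⟩ := mem_filter.1 hc
        refine (hSt.out c b2 b1).trans_le (card_le_card ?_)
        intro i hi
        obtain ⟨-, hi⟩ := mem_filter.1 hi
        exact mem_filter.2 ⟨mem_univ _, fun h => hi (mem_of_mem_erase h)⟩)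
    refine ⟨y', fun u hu => a1 u (mem_union_left _ hu), fun l hl => ?_, fun c hc => ?_⟩
    · have h1 : l.1 ∈ A := hvs (mem_image_of_mem _ hl)
      rw [a1 _ (mem_union_left _ h1)]
      exact hf l hl
    · by_cases hcJ : c ∈ J
      · obtain ⟨i, hi, hi2⟩ := hSt.sat c hcJ
        exact ⟨i, mem_univ _, by rw [a1 _ hi, hi2]⟩
      · by_cases hcA : Al F y A c
        · obtain ⟨i, -, hi⟩ := a2 c (mem_filter.2 ⟨hc, hcA, hcJ⟩)
          exact ⟨i, mem_univ _, hi⟩
        · unfold Al at hcA
          push Not at hcA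
          obtain ⟨i, hi, hi2⟩ := hcA
          exact ⟨i, mem_univ _, by rw [a1 _ (mem_union_left _ hi), hi2]⟩
  have hex : ∃ i, ∀ J' : Finset (Fin m), J'.card ≤ 2 * t → G F y A (line i) J' := ⟨r, hQr⟩
  obtain ⟨i, hi⟩ : ∃ i, i = Nat.find hex := ⟨_, rfl⟩
  have hQi := Nat.find_spec hex
  have hmin : ∀ a, a < i → ¬ ∀ J' : Finset (Fin m), J'.card ≤ 2 * t → G F y A (line a) J' := by
    intro a ha
    rw [hi] at ha
    exact Nat.find_min hex ha
  have hir : i ≤ r := by
    rw [hi]
    exact Nat.find_le hQr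
  rw [← hi] at hQi
  have hiS : i < S := by omega
  have hcor := hC i hiS
  cases hrule : rule i with
  | ax =>
    rw [hrule] at hcor
    obtain ⟨C, hC1, hC2⟩ := hcor
    have hk : 0 < k := lt_of_le_of_lt (Nat.zero_le _) hP.jk
    have h1 : C.card ≤ t := Nat.le_of_mul_le_mul_left (hC1.trans hkt) hk
    obtain ⟨z, -, b2, b3⟩ := hQi C (by omega)
    obtain ⟨l, hl, hl2⟩ := hC2 z fun c hc => by
      obtain ⟨p, -, hp⟩ := b3 c hc
      exact ⟨p, hp⟩
    exact absurd hl2 (b2 l hl)
  | weak a =>
    rw [hrule] at hcor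
    obtain ⟨ha, hsub⟩ := hcor
    exfalso
    refine hmin a ha fun J' hJ' => ?_
    obtain ⟨z, b1, b2, b3⟩ := hQi J' hJ'
    exact ⟨z, b1, fun l hl => b2 l (hsub hl), b3⟩
  | res x a b =>
    rw [hrule] at hcor
    obtain ⟨ha, hb, hsa, hsb⟩ := hcor
    obtain ⟨Ja, ja1, ja2, ja3⟩ := exmin F y A (line a) (2 * t) (hmin a ha)
    obtain ⟨Jb, jb1, jb2, jb3⟩ := exmin F y A (line b) (2 * t) (hmin b hb)
    by_cases hab : Ja.card + Jb.card ≤ 2 * t
    · exfalso
      obtain ⟨z, b1, b2, b3⟩ := hQi (Ja ∪ Jb) ((card_union_le _ _).trans hab)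
      cases hzx : z x with
      | false =>
        refine ja2 ⟨z, b1, fun l hl => ?_, fun c hc => b3 c (mem_union_left _ hc)⟩
        rcases mem_insert.1 (hsa hl) with h | h
        · rw [h, hzx]
          exact Bool.false_ne_true
        · exact b2 l h
      | true =>
        refine jb2 ⟨z, b1, fun l hl => ?_, fun c hc => b3 c (mem_union_right _ hc)⟩
        rcases mem_insert.1 (hsb hl) with h | h
        · rw [h, hzx]
          exact Bool.false_ne_true.symm
        · exact b2 l h
    · rcases Nat.lt_or_ge t Ja.card with h | h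
      · obtain ⟨z, c1, c2, c3⟩ := med_core F hP hTRS y A (line a) Ja h ja1 ja2 ja3
        exact ⟨a, by omega, z, c1, c2, c3⟩
      · obtain ⟨z, c1, c2, c3⟩ := med_core F hP hTRS y A (line b) Jb (by omega) jb1 jb2 jb3
        exact ⟨b, by omega, z, c1, c2, c3⟩

theorem pf_NC2 (hTAR : T_TAR) (hMDD : PS.T_MDD) (hCR2 : T_CR2) : PS.T_NC2 := by
  classical
  intro n k m F j t d e s₀ hP hkt S line rule hD y A W J hSt r hr hF hvs
  have hcard : (A ∪ W).card + ((A ∪ W)ᶜ).card = n := by
    rw [Finset.card_add_card_compl, Fintype.card_fin]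
  have hW : W.card ≤ e := by
    refine le_trans hSt.crd (le_trans ?_ hP.je)
    exact Nat.mul_le_mul le_rfl hSt.lt.le
  have hAW : (A ∪ W).card ≤ A.card + W.card := Finset.card_union_le A W
  have hA : A.card ≤ (A ∪ W).card := Finset.card_le_card Finset.subset_union_left
  refine ⟨((A ∪ W)ᶜ).card, by omega, by omega, ?_⟩
  refine hCR2 n ((A ∪ W)ᶜ) y S (d + 2 * t) t (e + d) line ?_
  intro x B hx hBV hBa
  have h1 : ∀ u ∈ A ∪ W, x u = y u := by
    intro u hu
    apply hx
    rw [Finset.mem_compl]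
    exact fun h => h hu
  have h2 : (A ∪ B).card ≤ A.card + B.card := Finset.card_union_le A B
  obtain ⟨y', W', J', hSt', hyA, hdst⟩ := hTAR n k m F j t d e s₀ hP y A W J hSt x B h1
    (by omega)
  have h3 : Falsified (line r) y' := by
    intro l hl
    have h4 : l.1 ∈ vs (line r) := Finset.mem_image_of_mem _ hl
    rw [hyA l.1 (hvs h4)]
    exact hF l hl
  obtain ⟨i, hi, z, hz, hFz, hn⟩ := hMDD n k m F j t d e s₀ hP hkt S line rule hD y' (A ∪ B) W' J'
    hSt' r hr h3 (hvs.trans Finset.subset_union_left)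
  refine ⟨i, hi, y', z, hdst, fun u hu => hz u (Finset.mem_union_right _ hu), hFz, ?_⟩
  have h5 : (A ∪ B) ∪ vs (line i) ⊆ (A ∪ W) ∪ (B ∪ (vs (line i) ∩ (A ∪ W)ᶜ)) := by
    intro u hu
    rcases Finset.mem_union.1 hu with hu | hu
    · rcases Finset.mem_union.1 hu with hu | hu
      · exact Finset.mem_union_left _ (Finset.mem_union_left _ hu)
      · exact Finset.mem_union_right _ (Finset.mem_union_left _ hu)
    · by_cases h : u ∈ A ∪ W
      · exact Finset.mem_union_left _ h
      · exact Finset.mem_union_right _ (Finset.mem_union_right _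
          (Finset.mem_inter.2 ⟨hu, Finset.mem_compl.2 h⟩))
  have h6 := Finset.card_le_card h5
  have h7 := Finset.card_union_le (A ∪ W) (B ∪ (vs (line i) ∩ (A ∪ W)ᶜ))
  omega

private theorem dm_insert {n : ℕ} (L : Finset (Fin n × Bool)) (v : Fin n) (b : Bool) :
    dm (insert (v, b) L) = insert v (dm L) := by
  unfold dm
  rw [Finset.image_insert]

private theorem mem_dm {n : ℕ} {L : Finset (Fin n × Bool)} {v : Fin n} {b : Bool}
    (h : (v, b) ∈ L) : v ∈ dm L := Finset.mem_image_of_mem Prod.fst h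

private theorem dm_card_le {n : ℕ} (L : Finset (Fin n × Bool)) : (dm L).card ≤ L.card :=
  Finset.card_image_le

private theorem agr_mono {n : ℕ} {τ : Fin n → Bool} {L : Finset (Fin n × Bool)}
    {a : Fin n × Bool} (h : Agr τ (insert a L)) : Agr τ L :=
  fun l hl => h l (mem_insert_of_mem hl)

private theorem agr_eq {n : ℕ} {τ τ' : Fin n → Bool} {L : Finset (Fin n × Bool)}
    (h : Agr τ L) (h' : Agr τ' L) : ∀ u ∈ dm L, τ' u = τ u := by
  intro u hu
  obtain ⟨l, hl, rfl⟩ := Finset.mem_image.1 hu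
  rw [h l hl, h' l hl]

theorem pf_RSV (hSOL : T_SOL) (hNC1 : PS.T_NC1) (hNC2 : PS.T_NC2) : PS.T_RSV := by
  intro n k m F j t d e s₀ hP hkt hd K s D ρ hK hρ hD hno
  obtain ⟨hS1, hS2, hS3, hS4⟩ := hSOL n k m F j t d e s₀ hP
  have hje := hP.je
  refine ⟨fun L W => W.card ≤ e ∧ ∃ J, ∀ τ, Sat F τ → Agr τ L → St F j t τ (dm L) W J,
    ⟨?_, ?_, ?_, ?_⟩⟩
  · refine ⟨by simp, ∅, fun τ _ _ => ?_⟩
    exact hS1 τ
  · intro L W h
    exact h.1
  · rintro L W v b τ ⟨-, J, hJ⟩ hLD hv hsat hagr
    have hst := hJ τ hsat (agr_mono hagr)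
    have hc := dm_card_le L
    obtain ⟨W', J', hWW, hst'⟩ := hS3 τ (dm L) W J v hst hsat (by omega)
    have h1 : W'.card ≤ e := by
      have h2 := hst'.crd
      have h3 : j * J'.card ≤ j * t := Nat.mul_le_mul_left _ hst'.lt.le
      omega
    refine ⟨W', hWW, h1, J', fun τ' hsat' hagr' => ?_⟩
    have heq := agr_eq hagr hagr'
    rw [dm_insert] at heq ⊢
    exact hS2 τ τ' _ W' J' hst' hsat' heq
  · rintro L W v b τ ⟨-, J, hJ⟩ hLD hv hvW hsat hagr ⟨S, r, line, rule, hSs, hr, hcor, hlr, hpath⟩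
    have hst := hJ τ hsat (agr_mono hagr)
    have hc := dm_card_le L
    have hvn : v ∉ dm L ∪ W := by
      rw [mem_union]
      rintro (h | h)
      · exact hv h
      · exact hvW h
    obtain ⟨y, W', J', hst', hyv, hy⟩ := hS4 τ (dm L) W J v hst hvn (by omega)
    have hτv : τ v = b := hagr (v, b) (mem_insert_self _ _)
    have hag := agr_mono hagr
    have hfal : Falsified (line r) y := by
      intro l hl
      have h1 := hlr l hl
      rw [mem_insert] at h1
      rcases h1 with h1 | h1
      · have h2 : l.1 = v := congrArg Prod.fst h1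
        have h3 : (!l.2) = !b := congrArg Prod.snd h1
        rw [h2, hyv, hτv, ← h3]
        cases l.2 <;> simp
      · rw [hy _ (mem_dm h1), hag _ h1]
        change (!l.2) ≠ l.2
        cases l.2 <;> simp
    have hvs : vs (line r) ⊆ insert v (dm L) := by
      intro u hu
      obtain ⟨l, hl, rfl⟩ := Finset.mem_image.1 hu
      have h1 := hlr l hl
      rw [mem_insert] at h1
      rw [mem_insert]
      rcases h1 with h1 | h1
      · left
        exact congrArg Prod.fst h1
      · right
        exact mem_dm h1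
    have hcardA : (insert v (dm L)).card ≤ D := by
      have := Finset.card_insert_le v (dm L)
      omega
    have hpath' : ∀ (i : ℕ) (l : List (Fin n)), PS.Path rule r i l →
        (univ.filter fun v => k / K < l.count v).card ≤ ⌊ρ * n⌋₊ := by
      intro i l hl
      apply Nat.le_floor
      have h1 : (univ.filter fun v : Fin n => k / K < l.count v) =
          univ.filter fun v : Fin n => k < K * l.count v := by
        apply Finset.filter_congr
        intro u _
        rw [Nat.div_lt_iff_lt_mul (by omega), mul_comm]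
      rw [h1]
      exact hpath i l hl
    have h1 := hNC1 n k m F j t d e s₀ hP hkt hd S line rule hcor (k / K) ⌊ρ * n⌋₊ r hr hpath'
      y (insert v (dm L)) W' J' hst' hfal hvs
    obtain ⟨N, hN1, hN2, hN3⟩ := hNC2 n k m F j t d e s₀ hP hkt S line rule hcor
      y (insert v (dm L)) W' J' hst' r hr hfal hvs
    refine hno S hSs ?_ N (by omega) hN2 hN3
    refine h1.trans (Nat.mul_le_mul_left _ (Nat.mul_le_mul_right _ ?_))
    exact Nat.pow_le_pow_right (by norm_num) (by omega)

end Pool.Agent.H47.PS
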