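import Pool.Agent.H47.PS.FI3
import Pool.Agent.H47.PL.IND
import Pool.Agent.H47.PL.SEQ
import Pool.Agent.H47.PL.SOL
import Pool.Agent.H47.PL.TAR
import Pool.Agent.H45.PL.CR2
import Pool.Agent.H45.PL.LRN
import Pool.Agent.H14.PL.DR2
import Pool.Agent.H14.PL.MYU
import Pool.Agent.H5.PL.EXC
import Pool.Agent.H63.PL.FRE
import Pool.Agent.H63.PL.KEY
import Pool.Agent.H63.PL.LST
import Pool.Agent.H63.PL.WLK
import Pool.Agent.H67.PLN.LPO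
import Pool.Agent.H67.PLN.PL2
import Pool.Agent.H20.PL.LNB
import Pool.Agent.H19.PL.LOC
import Pool.Agent.H19.PL.NS1
import Pool.Agent.H4.PLN.WM2
import Pool.Agent.H4.PLN.WVC
import Pool.Agent.H74.PL.MYO
import Pool.Agent.H35.PL.NS2
import Pool.Agent.H35.PL.WPL
import Pool.Agent.H32.PLN.OSC
import Pool.Agent.H32.PLN.PAD
import Pool.Agent.H32.PLN.PL1
import Pool.Agent.H13.PL.PLS
import Pool.Agent.H13.PL.WTL
import Pool.Agent.H40.PL.PRS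
import Pool.Agent.H7.PL.WEX
import Pool.Agent.H7.PL.WUN
import Pool.Agent.H72.PL.WGN
import Pool.Agent.H51.PL.WM1
import Pool.Agent.H97.RK.All

/-!
Search in random and in planted k-CNFs at the scale of SETH (MP_c62aed_lc): the theorem.
-/

set_option autoImplicit false

namespace Pool.Agent.H47.PL

open Pool.Agent.H97.RK

theorem rsv3 : PS.T_RSV :=
  PS.pf_RSV (pf_SOL H42.RKS.pf_CLO ask)
    (PS.pf_NC1 (PS.pf_RND (PS.pf_STD ask H42.RKS.pf_FIX)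
      (H33.RKS.pf_FGT H42.RKS.pf_FIX H42.RKS.pf_CLO)) H37.RKS.pf_CN1)
    (PS.pf_NC2 (pf_TAR ask) (PS.pf_MDD H42.RKS.pf_FIX H27.RKS.pf_TRS)
      (H45.PL.pf_CR2 H70.RKS.pf_CN2))

theorem wvc3 : T_WVC := H4.PLN.pf_WVC H13.PL.pf_WTL

theorem wex3 : T_WEX := H7.PL.pf_WEX wvc3 H4.PLN.pf_WM2

theorem main3 : PS.Main :=
  pf_FI3 rsv3 pf_SEQ (H14.PL.pf_DR2 pf_IND)
    (H74.PL.pf_MYO H32.PLN.pf_PAD H63.PL.pf_WLK H63.PL.pf_KEY H40.PL.pf_PRS H5.PL.pf_EXC)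
    (H14.PL.pf_MYU H32.PLN.pf_PAD H63.PL.pf_WLK H63.PL.pf_KEY H40.PL.pf_PRS)
    (H63.PL.pf_FRE H45.RKS.pf_BLB)
    (H19.PL.pf_LOC H67.PLN.pf_LPO H67.PLN.pf_LAV (H20.PL.pf_LNB H45.RKS.pf_BLB) H63.PL.pf_LST
      H45.PL.pf_LRN)
    (H7.PL.pf_WUN wvc3 H51.PL.pf_WM1 H72.PL.pf_WGN wex3)
    (H35.PL.pf_WPL wvc3 H51.PL.pf_WM1 H72.PL.pf_WGN wex3 H32.PLN.pf_OSC H45.RKS.pf_BLB)
    (PS.pf_FN3 (H20.RKS.pf_PRM H45.RKS.pf_BLB) H78.RKS.pf_NX1 H27.RKS.pf_NX2 H32.PLN.pf_OSC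
      H32.PLN.pf_PL1 H67.PLN.pf_PL2 (H13.PL.pf_PLS H32.PLN.pf_OSC)
      (H35.PL.pf_NS2 H19.PL.pf_NS1 H45.RKS.pf_BLB))

end Pool.Agent.H47.PL
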