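import Pool.Agent.H47.PS.Adv
import Pool.Agent.H47.PL.Targets2

/-!
Search in random and in planted k-CNFs at the scale of SETH (MP_c62aed_lc): the two copies of the
definitions.
-/

set_option autoImplicit false

namespace Pool.Agent.H47.PS

open Finset

variable {n k m : ℕ}

/-- a tree -/
def cvT : PS.Tree n → PL.TreeC n
  | Tree.leaf => PL.TreeC.leaf
  | Tree.node v f => PL.TreeC.node v fun a b => cvT (f a b)

theorem find_cv (F : PS.Fml n k m) (Ex : Finset (Fin n × Bool) → Prop)
    (ω : Finset (Fin n × Bool) → Bool) (T : PS.Tree n) :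
    ∀ L, PS.Find F Ex ω T L ↔ PL.FindC F Ex ω (cvT T) L := by
  induction T with
  | leaf => exact fun L => Iff.rfl
  | node v f ih =>
    intro L
    unfold PS.Find cvT PL.FindC
    refine or_congr ?_ (and_congr_right fun _ => ?_)
    · exact exists_congr fun b => and_congr_right fun _ => ih b b L
    · exact exists_congr fun b => and_congr_right fun _ => ih (ω L) b _

/-- a protocol -/
def cvP : PS.Prot n k m → PL.Prot n k m
  | Prot.leaf => PL.Prot.leaf
  | Prot.read c f => PL.Prot.read c fun x => cvP (f x)
  | Prot.node v a f => PL.Prot.node v a fun b => cvP (f b)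

theorem reads_cv (P : PS.Prot n k m) : ∀ q, PS.Reads P q → PL.Reads (cvP P) q := by
  induction P with
  | leaf => exact fun q h => h
  | read c f ih =>
    intro q h
    exact ⟨h.1, fun x => ih x _ (h.2 x)⟩
  | node v a f ih =>
    intro q h
    exact fun b => ih b q (h b)

theorem findP_cv (F : PS.Fml n k m) (Ex : Finset (Fin n × Bool) → Prop) (P : PS.Prot n k m) :
    ∀ L, PS.FindP F Ex P L ↔ PL.FindP F Ex (cvP P) L := by
  induction P with
  | leaf => exact fun L => Iff.rfl
  | read c f ih =>
    intro L
    exact ih (fun i => (F c i).2) L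
  | node v a f ih =>
    intro L
    unfold PS.FindP cvP PL.FindP
    exact exists_congr fun b => and_congr_right fun _ => and_congr_right fun _ => ih b _

theorem run_cv (F : PS.Fml n k m) (pol : PS.Policy n m) (t : ℕ) :
    ∀ (h : List (Fin n → Bool)) (y : Fin n → Bool), PS.run F pol t h y = PL.run F pol t h y := by
  classical
  induction t with
  | zero =>
    intro h y
    rfl
  | succ t ih =>
    intro h y
    unfold PS.run PL.run
    by_cases hs : PS.Sat F y
    · rw [if_pos hs, if_pos (show PL.Sat F y from hs)]
    · rw [if_neg hs, if_neg (show ¬ PL.Sat F y from hs)]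
      rcases pol (y :: h) with _ | q
      · simp only [ih]
      · simp only [ih]
        rfl

theorem local_cv (ε Γ : ℝ) (F : PS.Fml n k m) (h : PL.Local ε Γ F) : PS.Local ε Γ F := by
  intro pol hpol t
  have h1 := h pol hpol t
  simp only [run_cv]
  exact h1

end Pool.Agent.H47.PS
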